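import Pool.Agent.H21.CV.Targets

/-!
# The first two coordinates of a zero divide determinants (row ZER)
-/

namespace Pool.Agent.H5.CV

open Finset MvPolynomial Pool.Agent.H31.RZ Pool.Agent.H21.CV

/-- scaling of the variables of a form -/
theorem eval₂_scale {σ R : Type*} [Fintype σ] [CommRing R] {F : MvPolynomial σ ℤ} {d : ℕ}
    (hF : F.IsHomogeneous d) (φ : ℤ →+* R) (b : R) (v : σ → R) :
    eval₂ φ (fun i => b * v i) F = b ^ d * eval₂ φ v F := by
  rw [eval₂_eq', eval₂_eq', Finset.mul_sum]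
  refine Finset.sum_congr rfl fun μ hμ => ?_
  have h1 : ∏ i, (b * v i) ^ μ i = b ^ d * ∏ i, v i ^ μ i := by
    rw [Finset.prod_congr rfl fun i _ => mul_pow b (v i) (μ i), Finset.prod_mul_distrib,
      Finset.prod_pow_eq_pow_sum]
    congr 2
    have h2 : Finsupp.degree μ = d := by
      have h3 := hF (mem_support_iff.1 hμ)
      rw [Finsupp.degree_eq_weight_one]
      exact h3
    rw [← h2, Finsupp.degree_eq_sum]
  rw [h1]
  ring

/-- evaluation of the polynomial `w(s, t, T)` modulo `q` -/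
theorem sp_eval (w : MvPolynomial (Fin 3) ℤ) (s t : ℤ) {R : Type*} [CommRing R] (φ : ℤ →+* R)
    (η : R) : ((sp w s t).map φ).eval η = eval₂ φ ![φ s, φ t, η] w := by
  rw [Polynomial.eval_map]
  unfold sp
  have h1 : Polynomial.eval₂ φ η (aeval ![Polynomial.C s, Polynomial.C t, Polynomial.X] w) =
      (Polynomial.eval₂RingHom φ η)
        (eval₂ (algebraMap ℤ (Polynomial ℤ)) ![Polynomial.C s, Polynomial.C t, Polynomial.X] w) :=
    rfl
  rw [h1, hom_eval₂]
  have h2 : (Polynomial.eval₂RingHom φ η).comp (algebraMap ℤ (Polynomial ℤ)) = φ :=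
    RingHom.ext_int _ _
  rw [h2]
  congr 1
  funext i
  fin_cases i
  · simp
  · simp
  · simp

theorem zer_aux (hD : T_DVD) (hS : T_SPM) {m d : ℕ} {F : MvPolynomial (Fin (m + 2)) ℤ}
    {e : Fin m → ℕ} {w : Fin m → MvPolynomial (Fin 3) ℤ} {y : Fin (m + 2) → ℤ}
    (hF : F.IsHomogeneous d)
    (hw : ∀ i, 1 ≤ e i ∧ (w i).IsHomogeneous (e i) ∧ (w i).coeff (Finsupp.single 2 (e i)) = 1)
    (hwy : ∀ i : Fin m, eval ![y 0, y 1, y i.succ.succ] (w i) = 0) (hFy : eval y F = 0)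
    (q : ℕ) (s t : ℤ) (b : ZMod q) (h0 : b * (y 0 : ZMod q) = s) (h1 : b * (y 1 : ZMod q) = t) :
    (q : ℤ) ∣ (MF F s t (fun i => sp (w i) s t) e).det := by
  apply hD q m F s t _ e (fun i => b * (y i.succ.succ : ZMod q)) (fun i => (hw i).1)
    (fun i => (hS (w i) (e i) s t (hw i).2.1 (hw i).2.2).1)
    (fun i => (hS (w i) (e i) s t (hw i).2.1 (hw i).2.2).2.1)
  · intro i
    rw [sp_eval]
    have h2 : (![(Int.castRingHom (ZMod q)) s, (Int.castRingHom (ZMod q)) t,
        b * (y i.succ.succ : ZMod q)] : Fin 3 → ZMod q) =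
        fun j => b * (Int.castRingHom (ZMod q)) (![y 0, y 1, y i.succ.succ] j) := by
      funext j
      fin_cases j
      · simpa using h0.symm
      · simpa using h1.symm
      · simp
    rw [h2, eval₂_scale (hw i).2.1]
    have h3 := eval₂_comp (Int.castRingHom (ZMod q)) ![y 0, y 1, y i.succ.succ] (w i)
    rw [hwy i, map_zero] at h3
    have h4 : (fun j => (Int.castRingHom (ZMod q)) ((![y 0, y 1, y i.succ.succ] : Fin 3 → ℤ) j)) =
      (Int.castRingHom (ZMod q)) ∘ ![y 0, y 1, y i.succ.succ] := rfl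
    rw [h4, ← h3, mul_zero]
  · have h2 : (∑ μ ∈ F.support, ((F.coeff μ : ℤ) : ZMod q) * (s : ZMod q) ^ μ 0 *
        (t : ZMod q) ^ μ 1 * ∏ i : Fin m, (b * (y i.succ.succ : ZMod q)) ^ μ i.succ.succ) =
        eval₂ (Int.castRingHom (ZMod q)) (fun i => b * (Int.castRingHom (ZMod q)) (y i)) F := by
      rw [eval₂_eq']
      refine Finset.sum_congr rfl fun μ _ => ?_
      rw [Fin.prod_univ_succ, Fin.prod_univ_succ, ← h0, ← h1]
      simp only [eq_intCast, Fin.succ_zero_eq_one]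
      ring
    rw [h2, eval₂_scale hF]
    have h3 := eval₂_comp (Int.castRingHom (ZMod q)) y F
    rw [hFy, map_zero] at h3
    have h4 : (fun j => (Int.castRingHom (ZMod q)) (y j)) = (Int.castRingHom (ZMod q)) ∘ y := rfl
    rw [h4, ← h3, mul_zero]

theorem pf_ZER (hD : T_DVD) (hS : T_SPM) : T_ZER := by
  intro m d F e w y hF hw hco hwy hFy
  obtain ⟨a, b, hab⟩ := hco
  constructor
  · rw [← Int.natAbs_dvd]
    apply zer_aux hD hS hF hw hwy hFy (y 0).natAbs 0 1 (b : ZMod (y 0).natAbs)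
    · have h1 : ((y 0 : ℤ) : ZMod (y 0).natAbs) = 0 := by
        rw [ZMod.intCast_zmod_eq_zero_iff_dvd]
        exact Int.natAbs_dvd.2 dvd_rfl
      rw [h1, mul_zero, Int.cast_zero]
    · have h1 : ((y 0 : ℤ) : ZMod (y 0).natAbs) = 0 := by
        rw [ZMod.intCast_zmod_eq_zero_iff_dvd]
        exact Int.natAbs_dvd.2 dvd_rfl
      have h2 : ((a * y 0 + b * y 1 : ℤ) : ZMod (y 0).natAbs) = ((1 : ℤ) : ZMod (y 0).natAbs) := by
        rw [hab]
      rw [Int.cast_add, Int.cast_mul, Int.cast_mul, h1, mul_zero, zero_add] at h2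
      exact h2
  · rw [← Int.natAbs_dvd]
    apply zer_aux hD hS hF hw hwy hFy (y 1).natAbs 1 0 (a : ZMod (y 1).natAbs)
    · have h1 : ((y 1 : ℤ) : ZMod (y 1).natAbs) = 0 := by
        rw [ZMod.intCast_zmod_eq_zero_iff_dvd]
        exact Int.natAbs_dvd.2 dvd_rfl
      have h2 : ((a * y 0 + b * y 1 : ℤ) : ZMod (y 1).natAbs) = ((1 : ℤ) : ZMod (y 1).natAbs) := by
        rw [hab]
      rw [Int.cast_add, Int.cast_mul, Int.cast_mul, h1, mul_zero, add_zero] at h2
      exact h2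
    · have h1 : ((y 1 : ℤ) : ZMod (y 1).natAbs) = 0 := by
        rw [ZMod.intCast_zmod_eq_zero_iff_dvd]
        exact Int.natAbs_dvd.2 dvd_rfl
      rw [h1, mul_zero, Int.cast_zero]

end Pool.Agent.H5.CV
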